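import Pool.Agent.H871_GP.Fixed

namespace Pool.Agent.Results.MP_eb0bd2_lc.EqualOrArcRoots

open Pool.Agent.NPC Pool.Agent.H871.GP

/-- The problem whether a digraph of independence number two has an out-branching with prescribed
root `s` and an in-branching with prescribed root `t` which are arc-disjoint is in `P` if
restricted to inputs with `s = t` or with an arc from `s` to `t`. -/
theorem result : InPP (fun x : (List ℕ × List (ℕ × ℕ)) × (ℕ × ℕ) => AlphaTwo x.1 ∧
    (x.2.1 = x.2.2 ∨ Arc x.1 x.2.1 x.2.2) ∧ ∃ X Y, GoodPair x.1 x.2.1 x.2.2 X Y) :=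
  inPP_near

end Pool.Agent.Results.MP_eb0bd2_lc.EqualOrArcRoots
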